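import Pool.Agent.helper45.SGC.Spec

set_option autoImplicit false

namespace Pool.Agent.SGC

open Finset Pool.Agent.helper38.Neg Pool.Agent.helper55.NT

/-- a permutation which maps one set to another one of the same size -/
theorem CNA_perm {α : Type} [Fintype α] [DecidableEq α] (A B : Finset α) (h : A.card = B.card) :
    ∃ ρ : Equiv.Perm α, ∀ x, ρ x ∈ B ↔ x ∈ A := by
  have e : {x // x ∈ A} ≃ {x // x ∈ B} := Fintype.equivOfCardEq (by
    rw [Fintype.card_coe, Fintype.card_coe, h])
  refine ⟨e.extendSubtype, fun x => ?_⟩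
  by_cases hx : x ∈ A
  · exact ⟨fun _ => hx, fun _ => e.extendSubtype_mem x hx⟩
  · exact ⟨fun h' => absurd h' (e.extendSubtype_not_mem x hx), fun h' => absurd h' hx⟩

theorem CNA : CNA_stmt := by
  classical
  intro h T S
  obtain ⟨κ, hκ⟩ : ∃ κ : Finset (Fin h × Fin 2) → ℕ, κ = fun T' =>
    (univ.filter fun σ : Fin h × Fin 2 ≃ Fin (2 * h) => T.map σ.symm.toEmbedding = T').card := ⟨_, rfl⟩
  have hmem : ∀ (σ : Fin h × Fin 2 ≃ Fin (2 * h)) (q : Fin h × Fin 2),
      q ∈ T.map σ.symm.toEmbedding ↔ σ q ∈ T := by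
    intro σ q
    rw [Finset.mem_map_equiv]
    simp
  have hcardα : Fintype.card (Fin h × Fin 2) = 2 * h := by
    rw [Fintype.card_prod, Fintype.card_fin, Fintype.card_fin, mul_comm]
  have hpat : ∀ σ : Fin h × Fin 2 ≃ Fin (2 * h), pat σ T = pat (Equiv.refl _) (T.map σ.symm.toEmbedding) := by
    intro σ
    unfold pat
    apply Finset.filter_congr
    intro p _
    rw [Equiv.refl_apply, Equiv.refl_apply, hmem, hmem]
  have hκc : ∀ T₁ T₂ : Finset (Fin h × Fin 2), T₁.card = T₂.card → κ T₁ ≤ κ T₂ := by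
    intro T₁ T₂ hT
    obtain ⟨ρ, hρ⟩ := CNA_perm T₁ T₂ hT
    rw [hκ]
    apply Finset.card_le_card_of_injOn (fun σ => ρ.symm.trans σ)
    · intro σ hσ
      have hσ' := (Finset.mem_filter.mp hσ).2
      refine Finset.mem_coe.mpr (Finset.mem_filter.mpr ⟨Finset.mem_univ _, ?_⟩)
      ext q
      rw [hmem]
      show σ (ρ.symm q) ∈ T ↔ q ∈ T₂
      rw [← hmem, hσ', ← hρ, Equiv.apply_symm_apply]
    · intro σ _ σ' _ hh
      ext x
      have := congrArg (fun f : Fin h × Fin 2 ≃ Fin (2 * h) => f (ρ x)) hh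
      simpa using congrArg Fin.val this
  have hκe : ∀ T₁ T₂ : Finset (Fin h × Fin 2), T₁.card = T₂.card → κ T₁ = κ T₂ :=
    fun T₁ T₂ hT => le_antisymm (hκc T₁ T₂ hT) (hκc T₂ T₁ hT.symm)
  -- the total number
  have htot : (2 * h).factorial = ∑ T' ∈ univ.filter (fun T' : Finset (Fin h × Fin 2) => T'.card = T.card), κ T' := by
    have h1 : Fintype.card (Fin h × Fin 2 ≃ Fin (2 * h)) = (2 * h).factorial := by
      rw [Fintype.card_equiv (Fintype.equivOfCardEq (by rw [hcardα, Fintype.card_fin])), hcardα]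
    rw [← h1, ← Finset.card_univ, hκ]
    refine Finset.card_eq_sum_card_fiberwise (f := fun σ : Fin h × Fin 2 ≃ Fin (2 * h) => T.map σ.symm.toEmbedding) ?_
    intro σ _
    refine Finset.mem_coe.mpr (Finset.mem_filter.mpr ⟨Finset.mem_univ _, ?_⟩)
    rw [Finset.card_map]
  have hpart : (univ.filter fun σ : Fin h × Fin 2 ≃ Fin (2 * h) => pat σ T = S).card =
      ∑ T' ∈ univ.filter (fun T' : Finset (Fin h × Fin 2) => T'.card = T.card ∧ pat (Equiv.refl _) T' = S), κ T' := by
    rw [Finset.card_eq_sum_card_fiberwise (f := fun σ : Fin h × Fin 2 ≃ Fin (2 * h) => T.map σ.symm.toEmbedding)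
      (t := univ.filter (fun T' : Finset (Fin h × Fin 2) => T'.card = T.card ∧ pat (Equiv.refl _) T' = S))]
    · apply Finset.sum_congr rfl
      intro T' hT'
      rw [hκ]
      congr 1
      ext σ
      simp only [Finset.mem_filter, Finset.mem_univ, true_and]
      constructor
      · rintro ⟨_, h2⟩
        exact h2
      · intro h2
        refine ⟨?_, h2⟩
        rw [hpat, h2]
        exact (Finset.mem_filter.mp hT').2.2
    · intro σ hσ
      refine Finset.mem_coe.mpr (Finset.mem_filter.mpr ⟨Finset.mem_univ _, ?_, ?_⟩)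
      · rw [Finset.card_map]
      · rw [← hpat]
        exact (Finset.mem_filter.mp hσ).2
  -- a representative
  obtain ⟨σ₀⟩ : Nonempty (Fin h × Fin 2 ≃ Fin (2 * h)) := ⟨Fintype.equivOfCardEq (by rw [hcardα, Fintype.card_fin])⟩
  have hT₀ : (T.map σ₀.symm.toEmbedding).card = T.card := Finset.card_map _
  have hchoose : (univ.filter (fun T' : Finset (Fin h × Fin 2) => T'.card = T.card)).card = (2 * h).choose T.card := by
    have h1 : univ.filter (fun T' : Finset (Fin h × Fin 2) => T'.card = T.card) =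
        Finset.powersetCard T.card (univ : Finset (Fin h × Fin 2)) := by
      ext T'
      simp [Finset.mem_powersetCard]
    rw [h1, Finset.card_powersetCard, Finset.card_univ, hcardα]
  rw [hpart, htot]
  rw [Finset.sum_congr rfl (g := fun _ => κ (T.map σ₀.symm.toEmbedding))
    (fun T' hT' => hκe T' _ ((Finset.mem_filter.mp hT').2.1.trans hT₀.symm))]
  rw [Finset.sum_congr rfl (s₁ := univ.filter (fun T' : Finset (Fin h × Fin 2) => T'.card = T.card))
    (g := fun _ => κ (T.map σ₀.symm.toEmbedding))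
    (fun T' hT' => hκe T' _ ((Finset.mem_filter.mp hT').2.trans hT₀.symm))]
  rw [Finset.sum_const, Finset.sum_const, hchoose, smul_eq_mul, smul_eq_mul]
  ring

end Pool.Agent.SGC
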