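import Pool.Agent.helper45.SGC.Spec

set_option autoImplicit false

namespace Pool.Agent.SGC

open Finset Pool.Agent.helper38.Neg Pool.Agent.helper55.NT

theorem STB_one {n : ℕ} {W : Type} (C : SCirc n W) (ρ : Fin n → Fin n) (hρ : ∀ p, ρ p = p) :
    Ext C ρ 1 := by
  refine ⟨fun g => ?_, fun g => ?_, fun g => rfl, rfl⟩
  · have : ρ = id := funext hρ
    rw [this]
    simp
  · ext x
    rw [Finset.mem_map_equiv]
    rfl

theorem STB_mul {n : ℕ} {W : Type} (C : SCirc n W) (ρ ρ' ρ'' : Fin n → Fin n) (π π' : Equiv.Perm W)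
    (h : Ext C ρ π) (h' : Ext C ρ' π') (hρ : ∀ p, ρ'' p = ρ (ρ' p)) : Ext C ρ'' (π * π') := by
  obtain ⟨h1, h2, h3, h4⟩ := h
  obtain ⟨h1', h2', h3', h4'⟩ := h'
  refine ⟨fun g => ?_, fun g => ?_, fun g => ?_, ?_⟩
  · rw [Equiv.Perm.mul_apply, h1, h1', Option.map_map]
    congr 1
    funext p
    exact (hρ p).symm
  · rw [Equiv.Perm.mul_apply, h2, h2', Finset.map_map]
    rfl
  · rw [Equiv.Perm.mul_apply, h3, h3']
  · rw [Equiv.Perm.mul_apply, h4', h4]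

theorem STB_inv {n : ℕ} {W : Type} (C : SCirc n W) (ρ : Fin n → Fin n) (π : Equiv.Perm W)
    (h : Ext C ρ π) (hρ : ∀ p, ρ (ρ p) = p) : Ext C ρ π⁻¹ := by
  obtain ⟨h1, h2, h3, h4⟩ := h
  refine ⟨fun g => ?_, fun g => ?_, fun g => ?_, ?_⟩
  · have h5 := h1 (π⁻¹ g)
    rw [show π (π⁻¹ g) = g from π.apply_symm_apply g] at h5
    rw [h5, Option.map_map]
    have : ρ ∘ ρ = id := funext hρ
    rw [this, Option.map_id]
    rfl
  · have h5 := h2 (π⁻¹ g)
    rw [show π (π⁻¹ g) = g from π.apply_symm_apply g] at h5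
    rw [h5, Finset.map_map]
    ext x
    simp
  · have h5 := h3 (π⁻¹ g)
    rw [show π (π⁻¹ g) = g from π.apply_symm_apply g] at h5
    exact h5.symm
  · rw [Equiv.Perm.inv_eq_iff_eq]
    exact h4.symm

theorem STB (hFLA : FLA_stmt) : STB_stmt := by
  classical
  intro n s V C hS
  obtain ⟨h0, hadd, hinv, -⟩ := hFLA n
  have hmk : ∀ g : Fin s, ∃ H : Submodule (ZMod 2) (Sg (tv n)), ∀ γ : Sg (tv n),
      γ ∈ H ↔ (γ ∈ V ∧ ∃ π : Equiv.Perm (Fin s), Ext C (fl γ) π ∧ π g = g) := by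
    intro g
    refine ⟨{ carrier := {γ | γ ∈ V ∧ ∃ π : Equiv.Perm (Fin s), Ext C (fl γ) π ∧ π g = g}
              add_mem' := ?_
              zero_mem' := ?_
              smul_mem' := ?_ }, fun γ => Iff.rfl⟩
    · rintro γ δ ⟨hγ, π, hπ, hπg⟩ ⟨hδ, π', hπ', hπg'⟩
      refine ⟨V.add_mem hγ hδ, π * π', STB_mul C (fl γ) (fl δ) (fl (γ + δ)) π π' hπ hπ' (hadd γ δ), ?_⟩
      rw [Equiv.Perm.mul_apply, hπg', hπg]
    · exact ⟨V.zero_mem, 1, STB_one C _ h0, rfl⟩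
    · rintro c γ ⟨hγ, π, hπ, hπg⟩
      have hc : c = 0 ∨ c = 1 := by
        revert c
        decide
      rcases hc with hc | hc
      · subst hc
        rw [zero_smul]
        exact ⟨V.zero_mem, 1, STB_one C _ h0, rfl⟩
      · subst hc
        rw [one_smul]
        exact ⟨hγ, π, hπ, hπg⟩
  choose H hH using hmk
  refine ⟨H, fun g => ⟨fun γ hγ => ((hH g γ).mp hγ).1, ?_, fun γ hγ => ((hH g γ).mp hγ).2⟩⟩
  -- the index
  choose π hπ using hS
  have hfin : Finite V := inferInstance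
  have hfinH : Finite (H g) := inferInstance
  -- injective map V → Fin s × H g
  have hsame : ∀ (γ δ : Sg (tv n)) (hγ : γ ∈ V) (hδ : δ ∈ V), π γ hγ g = π δ hδ g → γ + δ ∈ H g := by
    intro γ δ hγ hδ he
    rw [hH]
    refine ⟨V.add_mem hγ hδ, (π δ hδ)⁻¹ * π γ hγ, ?_, ?_⟩
    · have h1 := STB_inv C (fl δ) (π δ hδ) (hπ δ hδ) (hinv δ)
      refine STB_mul C (fl δ) (fl γ) (fl (γ + δ)) _ _ h1 (hπ γ hγ) ?_
      intro p
      rw [add_comm γ δ, hadd]
    · rw [Equiv.Perm.mul_apply, he]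
      exact (π δ hδ).symm_apply_apply g
  -- representatives of the fibres
  have hrep : ∀ j : Fin s, ∃ δ : Sg (tv n), ∃ hδ : δ ∈ V, (∃ γ : Sg (tv n), ∃ hγ : γ ∈ V, π γ hγ g = j) → π δ hδ g = j := by
    intro j
    by_cases h : ∃ γ : Sg (tv n), ∃ hγ : γ ∈ V, π γ hγ g = j
    · obtain ⟨γ, hγ, hj⟩ := h
      exact ⟨γ, hγ, fun _ => hj⟩
    · exact ⟨0, V.zero_mem, fun h' => absurd h' h⟩
  choose δ hδV hδ using hrep
  let F : V → Fin s × H g := fun γ =>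
    (π γ.1 γ.2 g, ⟨γ.1 + δ (π γ.1 γ.2 g), by
      apply hsame γ.1 (δ (π γ.1 γ.2 g)) γ.2 (hδV _)
      rw [hδ (π γ.1 γ.2 g) ⟨γ.1, γ.2, rfl⟩]⟩)
  have hF : Function.Injective F := by
    intro a b hab
    simp only [F, Prod.mk.injEq, Subtype.mk.injEq] at hab
    obtain ⟨h1, h2⟩ := hab
    rw [h1] at h2
    exact Subtype.ext (add_right_cancel h2)
  have h3 := Nat.card_le_card_of_injective F hF
  rw [Nat.card_prod, Nat.card_eq_fintype_card (α := Fin s), Fintype.card_fin] at h3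
  exact h3

end Pool.Agent.SGC
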